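import Pool.Agent.U376.ECov.Main

/-!
# MP_2a9600_co: distinct roots of edge cover polynomials at minimum degree two

`edgeCoverPoly G` is `E(G,x) = ∑_{i=0}^{|E|} e(G,i) x^i ∈ ℂ[x]`, where `e(G,i) = numCovers G i` is
the number of members with `i` elements of `covers G`, the set of all edge covering sets of `G`.

We prove that every finite connected graph with minimum degree exactly two other than `K_3` has at
least three distinct complex roots of its edge cover polynomial.
-/

namespace Pool.Agent.Results.MP_2a9600_co.ThreeDistinctRoots

open Pool.Agent.U376.ECov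

theorem result {V : Type*} [Fintype V] [DecidableEq V] (G : SimpleGraph V) [DecidableRel G.Adj]
    (hconn : G.Connected) (hmin : G.minDegree = 2)
    (hK3 : ¬ Nonempty (G ≃g (⊤ : SimpleGraph (Fin 3)))) :
    3 ≤ {z : ℂ | (edgeCoverPoly G).eval z = 0}.ncard :=
  three_le G hconn hmin hK3

end Pool.Agent.Results.MP_2a9600_co.ThreeDistinctRoots
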